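import Pool.Agent.TH787.MonP

/-!
# Torsion quotients of the free group with cyclic centralizers below a given normal subgroup

Let `D` be a normal subgroup of the free group of rank two such that every element of the quotient
has odd order. Then there is a normal subgroup `R ≤ D` such that the quotient by `R` is a torsion
group in which the centralizer of every nontrivial element is cyclic. This is a variant of
`Pool.Agent.TH787.MonP` (a limit of the one-step theorem `Pool.Agent.TH64.ost`).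
-/

set_option autoImplicit false

namespace Pool.Agent.R666.OddMon

open Pool.Agent.TH64 Pool.Agent.TH787.MonP

/-- the invariants of the construction -/
structure Inv' (D : Subgroup F) (R : Subgroup F) (T : Set F) : Prop where
  nice : ∃ (Q : Type) (_ : Group Q) (ψ : F →* Q),
    Function.Surjective ψ ∧ Nice Q ∧ (∀ g, ψ g = 1 ↔ g ∈ R)
  fin : T.Finite
  le : R ≤ D
  rep : ∀ g, ∀ m : ℕ, 1 ≤ m → g ^ m ∈ R → g ∈ R ∨ ∃ t ∈ T, ∃ c : F, c⁻¹ * g * c * t⁻¹ ∈ R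
  cen : ∀ t ∈ T, ∃ y : F, Cen R t (Subgroup.zpowers y)

/-- one step -/
theorem step' {D : Subgroup F} (hD : D.Normal) (hDodd : ∀ g : F, ∃ d : ℕ, Odd d ∧ g ^ d ∈ D)
    {R : Subgroup F} {T : Set F} (hR : Inv' D R T)
    (γ : F) : ∃ (R' : Subgroup F) (T' : Set F), R ≤ R' ∧ T ⊆ T' ∧ Inv' D R' T' ∧
      (∀ t ∈ T, ∀ S : Set F, Cen R t S → Cen R' t S) ∧ ∃ m : ℕ, 1 ≤ m ∧ γ ^ m ∈ R' := by
  obtain ⟨Q, _, ψ, hψs, hQ, hker⟩ := hR.nice
  by_cases hfin : IsOfFinOrder (ψ γ)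
  · obtain ⟨m, hm, hm1⟩ := isOfFinOrder_iff_pow_eq_one.1 hfin
    rw [← map_pow, hker] at hm1
    exact ⟨R, T, le_rfl, le_rfl, hR, fun _ _ _ h => h, m, hm, hm1⟩
  obtain ⟨x, ⟨j, hj⟩, hx, -, hN⟩ := ost hQ (ψ γ) hfin
  obtain ⟨N0, hN0⟩ := hN (ψ '' T) (hR.fin.image _)
  obtain ⟨x', hx'⟩ := hψs x
  obtain ⟨d, hd, hxd⟩ := hDodd x'
  obtain ⟨N, hNdef⟩ : ∃ N, N = d * (2 * N0 + 1) := ⟨_, rfl⟩
  have hNN : N0 ≤ N := by
    rw [hNdef]
    calc N0 ≤ 1 * (2 * N0 + 1) := by omega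
      _ ≤ d * (2 * N0 + 1) := Nat.mul_le_mul_right _ hd.pos
  have hNodd : Odd N := by
    rw [hNdef]
    exact hd.mul ⟨N0, rfl⟩
  have hNpos : 1 ≤ N := hNodd.pos
  have hxND : x' ^ N ∈ D := by
    rw [hNdef, pow_mul]
    exact D.pow_mem hxd _
  have S := hN0 N hNN hNodd
  set M := Subgroup.normalClosure ({x ^ N} : Set Q) with hM
  have hMn : M.Normal := Subgroup.normalClosure_normal
  have hxN : x ^ N ∈ M := Subgroup.subset_normalClosure rfl
  have hxNz : ∀ l : ℤ, x ^ ((N : ℤ) * l) ∈ M := by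
    intro l
    rw [zpow_mul, zpow_natCast]
    exact M.zpow_mem hxN l
  set R' := M.comap ψ with hR'
  have hR'n : R'.Normal := hMn.comap ψ
  have hRR' : R ≤ R' := by
    intro r hr
    show ψ r ∈ M
    rw [(hker r).2 hr]
    exact M.one_mem
  have hR'D : R' ≤ D := by
    intro r hr
    have h1 : ψ r ∈ M := hr
    have h2 : M ≤ D.map ψ := by
      have : (D.map ψ).Normal := hD.map ψ hψs
      rw [hM]
      apply Subgroup.normalClosure_le_normal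
      rintro _ rfl
      exact ⟨x' ^ N, hxND, by rw [map_pow, hx']⟩
    obtain ⟨e, he, hre⟩ := h2 h1
    have h3 : r * e⁻¹ ∈ R := by
      rw [← hker, map_mul, map_inv, hre, mul_inv_cancel]
    have h4 : r = (r * e⁻¹) * e := by group
    rw [h4]
    exact D.mul_mem (hR.le h3) he
  -- the centralizers of old elements
  have hold : ∀ t ∈ T, ∀ S : Set F, Cen R t S → Cen R' t S := by
    intro t ht S' hS' h hh
    have h1 : (ψ t)⁻¹ * ψ h * ψ t * (ψ h)⁻¹ ∈ M := by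
      have : ψ (t⁻¹ * h * t * h⁻¹) ∈ M := hh
      rwa [map_mul, map_mul, map_mul, map_inv, map_inv] at this
    obtain ⟨n, hn, hcomm⟩ := S.com (ψ t) ⟨t, ht, rfl⟩ (ψ h) h1
    obtain ⟨n', rfl⟩ := hψs n
    have hn' : n' ∈ R' := hn
    have h2 : t⁻¹ * (n' * h) * t * (n' * h)⁻¹ ∈ R := by
      rw [← hker, map_mul, map_mul, map_mul, map_inv, map_inv, map_mul]
      rw [mul_assoc (ψ t)⁻¹, hcomm]
      group
    obtain ⟨c, hc, hc2⟩ := hS' _ h2
    refine ⟨c, hc, ?_⟩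
    have h3 : c⁻¹ * h = (c⁻¹ * (n' * h)) * (h⁻¹ * n'⁻¹ * h⁻¹⁻¹) := by group
    rw [h3]
    exact R'.mul_mem (hRR' hc2) (hR'n.conj_mem _ (R'.inv_mem hn') h⁻¹)
  have hxc : ∀ k : ℕ, ¬ (N : ℤ) ∣ (k : ℤ) → Cen R' (x' ^ k) (Subgroup.zpowers x') := by
    intro k hk h hh
    have h1 : x ^ (-(k : ℤ)) * ψ h * x ^ (k : ℤ) * (ψ h)⁻¹ ∈ M := by
      have : ψ ((x' ^ k)⁻¹ * h * x' ^ k * h⁻¹) ∈ M := hh
      rw [map_mul, map_mul, map_mul, map_inv, map_inv, map_pow, hx'] at this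
      rwa [zpow_neg, zpow_natCast]
    obtain ⟨n, hn, l, hl⟩ := S.comx (k : ℤ) (ψ h) hk h1
    refine ⟨x' ^ l, ⟨l, rfl⟩, ?_⟩
    show ψ ((x' ^ l)⁻¹ * h) ∈ M
    rw [map_mul, map_inv, map_zpow, hx', hl]
    have := hMn.conj_mem n hn (x ^ l)⁻¹
    rwa [inv_inv, mul_assoc] at this
  refine ⟨R', T ∪ (fun k : ℕ => x' ^ k) '' Set.Ioo 0 N, hRR', Set.subset_union_left,
    ⟨?_, ?_, hR'D, ?_, ?_⟩, hold, N, hNpos, ?_⟩
  · exact ⟨Q ⧸ M, inferInstance, (QuotientGroup.mk' M).comp ψ,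
      (QuotientGroup.mk'_surjective M).comp hψs, S.nice, fun g => QuotientGroup.eq_one_iff _⟩
  · exact hR.fin.union ((Set.finite_Ioo 0 N).image _)
  · intro g m hm hgm
    have h1 : ψ g ^ m ∈ M := by
      rw [← map_pow]
      exact hgm
    obtain ⟨n, hn, hcase⟩ := S.tor (ψ g) m hm h1
    obtain ⟨n', rfl⟩ := hψs n
    have hn' : n' ∈ R' := hn
    rcases hcase with hcase | ⟨c, k, hk⟩
    · rw [← map_mul] at hcase
      obtain ⟨k, hk, hk1⟩ := isOfFinOrder_iff_pow_eq_one.1 hcase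
      rw [← map_pow, hker] at hk1
      rcases hR.rep _ k hk hk1 with h2 | ⟨t, ht, c, hc⟩
      · left
        have : g = (g * n') * n'⁻¹ := by group
        rw [this]
        exact R'.mul_mem (hRR' h2) (R'.inv_mem hn')
      · right
        refine ⟨t, Or.inl ht, c, ?_⟩
        have : c⁻¹ * g * c * t⁻¹ = (c⁻¹ * (g * n') * c * t⁻¹) *
            ((t * c⁻¹) * n'⁻¹ * (t * c⁻¹)⁻¹) := by group
        rw [this]
        exact R'.mul_mem (hRR' hc) (hR'n.conj_mem _ (R'.inv_mem hn') _)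
    · have hk' : x ^ k = c⁻¹ * (ψ g * ψ n') * c := hk
      obtain ⟨c', rfl⟩ := hψs c
      have hg : ψ g = ψ c' * x ^ k * (ψ c')⁻¹ * (ψ n')⁻¹ := by rw [hk']; group
      have hdiv := Int.emod_add_mul_ediv k (N : ℤ)
      have hNpos' : (0 : ℤ) < N := by exact_mod_cast hNpos
      obtain ⟨i, hi⟩ := Int.eq_ofNat_of_zero_le (Int.emod_nonneg k hNpos'.ne')
      have hiN : i < N := by
        have := Int.emod_lt_of_pos k hNpos'
        rw [hi] at this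
        exact_mod_cast this
      rcases Nat.eq_zero_or_pos i with hi0 | hi0
      · left
        show ψ g ∈ M
        rw [hg]
        refine M.mul_mem (hMn.conj_mem _ ?_ _) (M.inv_mem hn)
        rw [← hdiv, hi, hi0]
        simp only [Nat.cast_zero, zero_add]
        exact hxNz _
      · right
        refine ⟨x' ^ i, Or.inr ⟨i, ⟨hi0, hiN⟩, rfl⟩, c', ?_⟩
        show ψ (c'⁻¹ * g * c' * (x' ^ i)⁻¹) ∈ M
        have h4 : ψ (c'⁻¹ * g * c' * (x' ^ i)⁻¹) = x ^ ((N : ℤ) * (k / N)) *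
            ((x ^ (i : ℤ) * (ψ c')⁻¹) * (ψ n')⁻¹ * (x ^ (i : ℤ) * (ψ c')⁻¹)⁻¹) := by
          have h5 : x ^ k = x ^ ((N : ℤ) * (k / N)) * x ^ (i : ℤ) := by
            rw [← zpow_add, add_comm, ← hi, hdiv]
          rw [map_mul, map_mul, map_mul, map_inv, map_inv, map_pow, hx', hg, h5, zpow_natCast]
          group
        rw [h4]
        exact M.mul_mem (hxNz _) (hMn.conj_mem _ (M.inv_mem hn) _)
  · rintro t (ht | ⟨k, hk, rfl⟩)
    · obtain ⟨y, hy⟩ := hR.cen t ht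
      exact ⟨y, hold t ht _ hy⟩
    · refine ⟨x', hxc k ?_⟩
      intro h
      have h3 := Nat.le_of_dvd hk.1 (Int.natCast_dvd_natCast.1 h)
      exact absurd hk.2 (not_lt.2 h3)
  · show ψ (γ ^ N) ∈ M
    rw [map_pow, ← hj, ← zpow_natCast, ← zpow_mul, mul_comm]
    exact hxNz j

theorem base' (D : Subgroup F) : Inv' D ⊥ ∅ where
  nice := ⟨F, inferInstance, MonoidHom.id F, Function.surjective_id, AppA.nice_free,
    fun g => Subgroup.mem_bot.symm⟩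
  fin := Set.finite_empty
  le := bot_le
  rep := by
    intro g m hm h
    left
    rw [Subgroup.mem_bot] at h ⊢
    exact FreeBase.free_torsion_free g (isOfFinOrder_iff_pow_eq_one.2 ⟨m, hm, h⟩)
  cen := fun _ h => absurd h (Set.notMem_empty _)

/-- the limit of the construction -/
theorem limit' {D : Subgroup F} (hD : D.Normal) (hDodd : ∀ g : F, ∃ d : ℕ, Odd d ∧ g ^ d ∈ D) :
    ∃ R : Subgroup F, R.Normal ∧ R ≤ D ∧
    (∀ g : F, ∃ m : ℕ, 1 ≤ m ∧ g ^ m ∈ R) ∧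
    ∀ t, t ∉ R → ∃ y : F, Cen R t (Subgroup.zpowers y) := by
  classical
  obtain ⟨e, he⟩ := exists_surjective_nat F
  have hstep : ∀ (n : ℕ) (s : {s : Subgroup F × Set F // Inv' D s.1 s.2}),
      ∃ s' : {s : Subgroup F × Set F // Inv' D s.1 s.2}, s.1.1 ≤ s'.1.1 ∧ s.1.2 ⊆ s'.1.2 ∧
        (∀ t ∈ s.1.2, ∀ S : Set F, Cen s.1.1 t S → Cen s'.1.1 t S) ∧
        ∃ m : ℕ, 1 ≤ m ∧ (e n) ^ m ∈ s'.1.1 := by
    intro n s
    obtain ⟨R', T', h1, h2, h3, h4, h5⟩ := step' hD hDodd s.2 (e n)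
    exact ⟨⟨(R', T'), h3⟩, h1, h2, h4, h5⟩
  choose nxt hn1 hn2 hn3 hn4 using hstep
  let s : ℕ → {s : Subgroup F × Set F // Inv' D s.1 s.2} :=
    fun n => Nat.rec ⟨(⊥, ∅), base' D⟩ (fun n s => nxt n s) n
  have hs : ∀ n, s (n + 1) = nxt n (s n) := fun n => rfl
  have hmono : Monotone (fun n => (s n).1.1) := by
    apply monotone_nat_of_le_succ
    intro n
    show (s n).1.1 ≤ (s (n + 1)).1.1
    rw [hs]
    exact hn1 n (s n)
  have hTmono : Monotone (fun n => (s n).1.2) := by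
    apply monotone_nat_of_le_succ
    intro n
    show (s n).1.2 ⊆ (s (n + 1)).1.2
    rw [hs]
    exact hn2 n (s n)
  have hmem : ∀ g, g ∈ (⨆ n, (s n).1.1) ↔ ∃ n, g ∈ (s n).1.1 := by
    intro g
    exact Subgroup.mem_iSup_of_directed hmono.directed_le
  have hnorm : ∀ n, (s n).1.1.Normal := by
    intro n
    obtain ⟨Q, _, ψ, hψs, hQ, hker⟩ := (s n).2.nice
    constructor
    intro r hr g
    rw [← hker] at hr ⊢
    rw [map_mul, map_mul, hr, map_inv, mul_one, mul_inv_cancel]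
  have hRn : (⨆ n, (s n).1.1).Normal := by
    constructor
    intro n hn g
    rw [hmem] at hn ⊢
    obtain ⟨i, hi⟩ := hn
    exact ⟨i, (hnorm i).conj_mem n hi g⟩
  have htor : ∀ g : F, ∃ n m : ℕ, 1 ≤ m ∧ g ^ m ∈ (s n).1.1 := by
    intro g
    obtain ⟨n, rfl⟩ := he g
    obtain ⟨m, hm, hv⟩ := hn4 n (s n)
    rw [← hs] at hv
    exact ⟨n + 1, m, hm, hv⟩
  refine ⟨⨆ n, (s n).1.1, hRn, ?_, ?_, ?_⟩
  · exact iSup_le fun n => (s n).2.le
  · intro g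
    obtain ⟨n, m, hm, h⟩ := htor g
    exact ⟨m, hm, (hmem _).2 ⟨n, h⟩⟩
  · intro t ht
    obtain ⟨n, m, hm, h⟩ := htor t
    rcases (s n).2.rep t m hm h with h1 | ⟨u, hu, c, hc⟩
    · exact absurd ((hmem _).2 ⟨n, h1⟩) ht
    obtain ⟨y, hy⟩ := (s n).2.cen u hu
    have hall : ∀ k, Cen (s (n + k)).1.1 u (Subgroup.zpowers y) := by
      intro k
      induction k with
      | zero => exact hy
      | succ k ih =>
        rw [← add_assoc, hs]
        exact hn3 _ _ u (hTmono (Nat.le_add_right n k) hu) _ ih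
    refine ⟨c * y * c⁻¹, ?_⟩
    intro g hg
    set R := ⨆ n, (s n).1.1 with hR
    have hcR : c⁻¹ * t * c * u⁻¹ ∈ R := (hmem _).2 ⟨n, hc⟩
    -- transfer to `u`
    have h2 : u⁻¹ * (c⁻¹ * g * c) * u * (c⁻¹ * g * c)⁻¹ ∈ R := by
      obtain ⟨π, hπ⟩ : ∃ π : F →* F ⧸ R, ∀ g, π g = 1 ↔ g ∈ R :=
        ⟨QuotientGroup.mk' R, fun g => QuotientGroup.eq_one_iff g⟩
      rw [← hπ] at hg hcR ⊢
      simp only [map_mul, map_inv] at hg hcR ⊢
      have h3 : π u = (π c)⁻¹ * π t * π c := (mul_inv_eq_one.1 hcR).symm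
      have h4 : (π t)⁻¹ * π g * π t = π g := mul_inv_eq_one.1 hg
      rw [h3]
      calc ((π c)⁻¹ * π t * π c)⁻¹ * ((π c)⁻¹ * π g * π c) * ((π c)⁻¹ * π t * π c) *
            ((π c)⁻¹ * π g * π c)⁻¹
          = (π c)⁻¹ * ((π t)⁻¹ * π g * π t) * (π g)⁻¹ * π c := by group
        _ = 1 := by rw [h4]; group
    obtain ⟨k, hk⟩ := (hmem _).1 h2
    obtain ⟨_, ⟨l, rfl⟩, hl⟩ := hall k _ (hmono (Nat.le_add_left k n) hk)
    have hlR : (y ^ l)⁻¹ * (c⁻¹ * g * c) ∈ R := (hmem _).2 ⟨n + k, hl⟩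
    refine ⟨(c * y * c⁻¹) ^ l, ⟨l, rfl⟩, ?_⟩
    have h5 : ((c * y * c⁻¹) ^ l)⁻¹ * g = c * ((y ^ l)⁻¹ * (c⁻¹ * g * c)) * c⁻¹ := by
      rw [conj_zpow]
      group
    rw [h5]
    exact hRn.conj_mem _ hlR c

/-- in the quotient by a normal subgroup as in `limit'`, centralizers of nontrivial elements are
finite -/
theorem cen_finite {R : Subgroup F} [R.Normal] (htor : ∀ g : F, ∃ m : ℕ, 1 ≤ m ∧ g ^ m ∈ R)
    (hcen : ∀ t, t ∉ R → ∃ y : F, Cen R t (Subgroup.zpowers y)) (t : F ⧸ R) (ht : t ≠ 1) :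
    (Subgroup.centralizer {t} : Set (F ⧸ R)).Finite := by
  obtain ⟨π, hπs, hπ⟩ : ∃ π : F →* F ⧸ R, Function.Surjective π ∧ ∀ g, π g = 1 ↔ g ∈ R :=
    ⟨QuotientGroup.mk' R, QuotientGroup.mk'_surjective R, fun g => QuotientGroup.eq_one_iff g⟩
  obtain ⟨t, rfl⟩ := hπs t
  have ht' : t ∉ R := fun h => ht ((hπ _).2 h)
  obtain ⟨y, hy⟩ := hcen t ht'
  obtain ⟨m, hm, hym⟩ := htor y
  have hfin : IsOfFinOrder (π y) := isOfFinOrder_iff_pow_eq_one.2
    ⟨m, hm, by rw [← map_pow]; exact (hπ _).2 hym⟩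
  have hzf : ((Subgroup.zpowers (π y) : Subgroup (F ⧸ R)) : Set (F ⧸ R)).Finite := by
    exact finite_zpowers.2 hfin
  apply hzf.subset
  intro h hh
  obtain ⟨h, rfl⟩ := hπs h
  have hh' : π h * π t = π t * π h := (Subgroup.mem_centralizer_iff.1 hh (π t) rfl).symm
  have h4 : t⁻¹ * h * t * h⁻¹ ∈ R := by
    rw [← hπ]
    simp only [map_mul, map_inv]
    rw [mul_assoc (π t)⁻¹, hh']
    group
  obtain ⟨_, ⟨l, rfl⟩, hl⟩ := hy h h4
  refine ⟨l, ?_⟩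
  rw [← hπ] at hl
  simp only [map_mul, map_inv, map_zpow] at hl
  exact inv_mul_eq_one.1 hl

end Pool.Agent.R666.OddMon
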